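import Pool.Agent.Q251.IPS.Metric

/-!
# MP_8f0578_co: invariant consistent path systems are `5 √|G|`-metric

`SimpleGraph.mulCayley S` is the Cayley graph of `G` with respect to `S` (Mathlib).
-/

set_option autoImplicit false

namespace Pool.Agent.Results.MP_8f0578_co.SqrtBound

open SimpleGraph

universe u

/-- A consistent path system in the graph `Γ`: a simple path `path u v` for all `u`, `v`, with
`P_{v,u}` the path `P_{u,v}` traversed backwards, such that each portion `q` of `P_{u,v}`, from `a`
to `b`, is `P_{a,b}`. -/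
structure PathSystem {V : Type u} (Γ : SimpleGraph V) where
  path : ∀ u v : V, Γ.Walk u v
  isPath : ∀ u v, (path u v).IsPath
  symm : ∀ u v, path v u = (path u v).reverse
  consistent : ∀ (u v a b : V) (p : Γ.Walk u a) (q : Γ.Walk a b) (r : Γ.Walk b v),
    path u v = p.append (q.append r) → q = path a b

/-- Invariance under left multiplication: `g P_{x,y} = P_{gx,gy}`. -/
def PathSystem.Invariant {G : Type u} [Group G] {Γ : SimpleGraph G} (P : PathSystem Γ) : Prop :=
  ∀ g x y : G, (P.path (g * x) (g * y)).support = (P.path x y).support.map (fun h => g * h)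

/-- `ρ` is a metric on `V`. -/
structure IsMetricOn {V : Type u} (ρ : V → V → ℝ) : Prop where
  self : ∀ x, ρ x x = 0
  pos : ∀ x y, x ≠ y → 0 < ρ x y
  symm : ∀ x y, ρ x y = ρ y x
  triangle : ∀ x y z, ρ x z ≤ ρ x y + ρ y z

/-- The length of a walk: the sum of `ρ(x_{i-1}, x_i)` over its steps. -/
noncomputable def walkLength {V : Type u} {Γ : SimpleGraph V} (ρ : V → V → ℝ) {u v : V}
    (w : Γ.Walk u v) : ℝ :=
  (w.darts.map fun d => ρ d.fst d.snd).sum

/-- The path system is `α`-metric. -/
def PathSystem.IsAlphaMetric {V : Type u} {Γ : SimpleGraph V} (P : PathSystem Γ) (α : ℝ) : Prop :=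
  ∃ ρ : V → V → ℝ, IsMetricOn ρ ∧ ∀ u v, walkLength ρ (P.path u v) ≤ α * ρ u v

/-- `Δ(P)`. -/
noncomputable def PathSystem.Delta {V : Type u} {Γ : SimpleGraph V} (P : PathSystem Γ) : ℝ :=
  sInf {α : ℝ | 1 ≤ α ∧ P.IsAlphaMetric α}

theorem walkLength_eq {V : Type u} {Γ : SimpleGraph V} (ρ : V → V → ℝ) {u v : V}
    (w : Γ.Walk u v) :
    walkLength ρ w = ∑ t ∈ Finset.range w.length, ρ (w.getVert t) (w.getVert (t + 1)) := by
  unfold walkLength
  induction w with
  | nil => simp
  | cons h p ih =>
    rw [Walk.darts_cons, List.map_cons, List.sum_cons, ih, Walk.length_cons,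
      Finset.sum_range_succ']
    simp only [Walk.getVert_cons_succ, Walk.getVert_zero]
    rw [add_comm]

section sys

variable {G : Type u} [Group G] {Γ : SimpleGraph G} (P : PathSystem Γ)

/-- The chosen paths as functions. -/
def QQ (h : ℕ → G) (L : ℕ) : Prop :=
  (P.path (h 0) (h L)).length = L ∧ ∀ t ≤ L, (P.path (h 0) (h L)).getVert t = h t

omit [Group G] in
theorem portion (u v : G) (i k : ℕ) (hik : i + k ≤ (P.path u v).length) :
    (P.path ((P.path u v).getVert i) ((P.path u v).getVert (i + k))).length = k ∧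
      ∀ t ≤ k, (P.path ((P.path u v).getVert i) ((P.path u v).getVert (i + k))).getVert t =
        (P.path u v).getVert (i + t) := by
  set p := P.path u v with hp
  have h1 : p = (p.take i).append (((p.drop i).take k).append ((p.drop i).drop k)) := by
    rw [Walk.append_take_drop_eq, Walk.append_take_drop_eq]
  have h2 := P.consistent u v _ _ _ _ _ (hp.symm.trans h1)
  have h3 : (p.drop i).getVert k = p.getVert (i + k) := Walk.drop_getVert _ _ _
  rw [← h3, ← h2]
  constructor
  · rw [Walk.take_length, Walk.drop_length]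
    omega
  · intro t ht
    rw [Walk.take_getVert, Walk.drop_getVert, Nat.min_eq_right ht]

omit [Group G] in
theorem support_of (u v : G) (t : ℕ) (ht : t ≤ (P.path u v).length) :
    (P.path u v).support[t]? = some ((P.path u v).getVert t) :=
  (Walk.getVert_eq_support_getElem? _ ht).symm

theorem sys (hinv : P.Invariant) : Q251.IPS.Sys (QQ P) where
  sub := by
    rintro h L i k ⟨h1, h2⟩ hik
    obtain ⟨h3, h4⟩ := portion P (h 0) (h L) i k (by omega)
    rw [h2 i (by omega), h2 (i + k) hik] at h3 h4
    refine ⟨h3, fun t ht => ?_⟩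
    show (P.path (h (i + 0)) (h (i + k))).getVert t = h (i + t)
    rw [Nat.add_zero, h4 t ht, h2 (i + t) (by omega)]
  rev := by
    rintro h L ⟨h1, h2⟩
    have key : ∀ a b : G, a = h L → b = h 0 → (P.path a b).length = L ∧
        ∀ t ≤ L, (P.path a b).getVert t = h (L - t) := by
      rintro a b rfl rfl
      rw [P.symm (h 0) (h L)]
      refine ⟨by rw [Walk.length_reverse, h1], fun t ht => ?_⟩
      rw [Walk.getVert_reverse, h1, h2 (L - t) (by omega)]
    exact key _ _ (by simp) (by simp)
  mul := by
    rintro h L g ⟨h1, h2⟩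
    have h3 := hinv g (h 0) (h L)
    have h4 : (P.path (g * h 0) (g * h L)).length = L := by
      have := congrArg List.length h3
      rw [Walk.length_support, List.length_map, Walk.length_support, h1] at this
      omega
    refine ⟨h4, fun t ht => ?_⟩
    have h5 := support_of P (g * h 0) (g * h L) t (by omega)
    rw [h3, List.getElem?_map, support_of P (h 0) (h L) t (by omega), h2 t ht] at h5
    exact (Option.some.inj h5).symm
  uniq := by
    rintro h L h' L' ⟨h1, h2⟩ ⟨h1', h2'⟩ h0 hL
    rw [h0, hL] at h1 h2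
    refine ⟨by omega, fun t ht => ?_⟩
    rw [← h2 t ht, h2' t (by omega)]
  total := by
    intro u v
    refine ⟨(P.path u v).getVert, (P.path u v).length, ⟨?_, ?_⟩, by simp, by simp⟩
    · rw [Walk.getVert_zero, Walk.getVert_length]
    · intro t _
      rw [Walk.getVert_zero, Walk.getVert_length]

end sys

/-- **Theorem.** A `G`-invariant consistent path system in a Cayley graph of a finite group `G` is
`5 √|G|`-metric. -/
theorem result (G : Type u) [Group G] [Finite G] (S : Set G) (_ : ∀ s ∈ S, s⁻¹ ∈ S)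
    (_ : Subgroup.closure S = ⊤) (P : PathSystem (mulCayley S)) (hP : P.Invariant) :
    P.IsAlphaMetric (5 * √(Nat.card G : ℝ)) ∧ P.Delta ≤ 5 * √(Nat.card G : ℝ) := by
  have := Fintype.ofFinite G
  obtain ⟨ρ, hρ, hb⟩ := (sys P hP).bound
  have h1 : (1 : ℝ) ≤ 5 * √(Nat.card G : ℝ) := by
    have h2 : (1 : ℝ) ≤ √(Nat.card G : ℝ) := by
      rw [Real.one_le_sqrt]
      exact_mod_cast Nat.card_pos
    linarith
  have h2 : P.IsAlphaMetric (5 * √(Nat.card G : ℝ)) := by
    refine ⟨ρ, ⟨hρ.self, hρ.pos, hρ.symm, hρ.triangle⟩, fun u v => ?_⟩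
    rw [walkLength_eq, Nat.card_eq_fintype_card]
    have h3 := hb (P.path u v).getVert (P.path u v).length ⟨by
      rw [Walk.getVert_zero, Walk.getVert_length], fun t _ => by
      rw [Walk.getVert_zero, Walk.getVert_length]⟩
    rwa [Walk.getVert_zero, Walk.getVert_length] at h3
  exact ⟨h2, csInf_le ⟨1, fun a ha => ha.1⟩ ⟨h1, h2⟩⟩

end Pool.Agent.Results.MP_8f0578_co.SqrtBound
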